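import Pool.Agent.helper34.NTA.Spec
set_option autoImplicit false
namespace Pool.Agent.NTA
open Equiv

theorem XCT_inj {H : Type} [Finite H] (B : Set (H × ZMod 10)) (f : H × ZMod 10 → H) (hf : Set.InjOn f B) :
    B.ncard ≤ Nat.card H := by
  have h1 : (f '' B).ncard = B.ncard := Set.ncard_image_of_injOn hf
  rw [← h1, ← Set.ncard_univ]
  exact Set.ncard_le_ncard (Set.subset_univ _) (Set.toFinite _)

theorem XCT_five : ({c : ZMod 10 | ¬ KL c} : Set (ZMod 10)).ncard = 5 := by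
  rw [Set.ncard_eq_toFinset_card']
  decide

theorem XCT : XCT_stmt := by
  intro H _ _ s sg hG A pos yp hP
  set U : Set (H × ZMod 10) := Set.univ ×ˢ {c : ZMod 10 | ¬ KL c} with hU
  have hUc : U.ncard = Nat.card H * 5 := by
    rw [hU, Set.ncard_prod, Set.ncard_univ, XCT_five]
  have hB : ∀ i : ℕ, ({x : H × ZMod 10 | pos x.1 x.2 = i} : Set (H × ZMod 10)).ncard ≤ Nat.card H := by
    intro i
    refine XCT_inj _ (fun x => x.1) ?_
    rintro ⟨h, c⟩ hx ⟨h', c'⟩ hx' hh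
    have e : h = h' := hh
    subst e
    have hx1 : pos h c = i := hx
    have hx2 : pos h c' = i := hx'
    rw [hP.inj h c c' (hx1.trans hx2.symm)]
  have hB' : ∀ i : ℕ, ({x : H × ZMod 10 | pos (x.1 * s x.2) x.2 = i} : Set (H × ZMod 10)).ncard ≤ Nat.card H := by
    intro i
    refine XCT_inj _ (fun x => x.1 * s x.2) ?_
    rintro ⟨h, c⟩ hx ⟨h', c'⟩ hx' hh
    have e : h * s c = h' * s c' := hh
    have hx1 : pos (h * s c) c = i := hx
    have hx2 : pos (h' * s c') c' = i := hx'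
    rw [← e] at hx2
    have ec := hP.inj _ c c' (hx1.trans hx2.symm)
    subst ec
    rw [mul_right_cancel e]
  have hsub : U ⊆ XS s pos ∪ ({x | pos x.1 x.2 = 0} ∪ ({x | pos x.1 x.2 = 9} ∪
      ({x | pos (x.1 * s x.2) x.2 = 0} ∪ {x | pos (x.1 * s x.2) x.2 = 9}))) := by
    rintro ⟨h, c⟩ ⟨-, hc⟩
    have hc' : ¬ KL c := hc
    have l1 := hP.lt h c
    have l2 := hP.lt (h * s c) c
    by_cases a1 : pos h c = 0
    · exact Or.inr (Or.inl a1)
    by_cases a2 : pos h c = 9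
    · exact Or.inr (Or.inr (Or.inl a2))
    by_cases a3 : pos (h * s c) c = 0
    · exact Or.inr (Or.inr (Or.inr (Or.inl a3)))
    by_cases a4 : pos (h * s c) c = 9
    · exact Or.inr (Or.inr (Or.inr (Or.inr a4)))
    refine Or.inl ⟨hc', ?_, ?_, ?_, ?_⟩
    · show 0 < pos h c
      omega
    · show pos h c < 9
      omega
    · show 0 < pos (h * s c) c
      omega
    · show pos (h * s c) c < 9
      omega
  have h1 := Set.ncard_le_ncard hsub (Set.toFinite _)
  have u1 := Set.ncard_union_le (XS s pos) ({x | pos x.1 x.2 = 0} ∪ ({x | pos x.1 x.2 = 9} ∪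
      ({x | pos (x.1 * s x.2) x.2 = 0} ∪ {x | pos (x.1 * s x.2) x.2 = 9})))
  have u2 := Set.ncard_union_le ({x : H × ZMod 10 | pos x.1 x.2 = 0}) ({x | pos x.1 x.2 = 9} ∪
      ({x | pos (x.1 * s x.2) x.2 = 0} ∪ {x | pos (x.1 * s x.2) x.2 = 9}))
  have u3 := Set.ncard_union_le ({x : H × ZMod 10 | pos x.1 x.2 = 9})
      ({x | pos (x.1 * s x.2) x.2 = 0} ∪ {x | pos (x.1 * s x.2) x.2 = 9})
  have u4 := Set.ncard_union_le ({x : H × ZMod 10 | pos (x.1 * s x.2) x.2 = 0}) {x | pos (x.1 * s x.2) x.2 = 9}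
  have b1 := hB 0
  have b2 := hB 9
  have b3 := hB' 0
  have b4 := hB' 9
  rw [hUc] at h1
  omega

end Pool.Agent.NTA
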